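import Pool.Agent.Q45.GM.Rep
import Pool.Agent.Q45.GM.J.W1
import Pool.Agent.Q45.GM.J.W2

/-!
# Irreducible Galois representations on the second cohomology of the surfaces
`y ^ 2 = b(w ^ 2 - g(x))`

Let `k` be a field of characteristic different from `2`, with separable closure `k'`, `g` a monic
polynomial of odd degree `n` and `b` a polynomial of degree `d > 0` over `k`, such that `b(-g(x))` is
separable. The surface `X : y ^ 2 = b(w ^ 2 - g(x))` is fibred over the curve `C : s ^ 2 = b(t)` by
`t = w ^ 2 - g(x)`, and the generic fibre is the hyperelliptic curve `w ^ 2 = g(x) + t` over the function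
field `K` of `C`. Let `J` be the Jacobian of this curve, `F = k' K`, `B` the integral closure of `k'[t]`
in `F`, and `M` the `ℤ_2`-module of the classes of the continuous cocycles of `Gal(Sep F / F)` with values
in the Tate module `T_2 J` which are locally trivial at all the maximal ideals of `B`. The group of the
automorphisms of the separable closure of `F` over `K` acts on `M`, through `Gal(k' / k)`.

A function `e` on the set of the roots of `b(-g(x))` in `k'` with values in `𝔽_2` is balanced if
the sum of the `e(r)` over the roots `r` of `g(x) + δ` is zero, for each root `δ` of `b`. Suppose that the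
Galois module of the balanced functions is irreducible.

(1) The module `M` is zero or free of rank `d (n - 1)`, and the representation on `V = ℚ_2 ⊗ M` is
irreducible: each stable submodule of `M` is zero or of finite index. If a subset `N` of the group,
stable under conjugation, fixes an element different from zero of `M`, it fixes all the elements. If the
only Galois endomorphisms of the module of the balanced functions are `0` and `1` then the endomorphisms of
`M` which commute with the action are the elements of `ℤ_2`.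

(2) The conditions on the module of the balanced functions hold if `b` is irreducible over `k` and the
Galois group of `b(-g(x))` contains all the transpositions of two roots of `g(x) + δ`, for all
roots `δ` of `b`.
-/

set_option autoImplicit false
set_option linter.all false

open Polynomial IsDedekindDomain
open scoped Classical

namespace Pool.Agent.Results.MP_b4801b_ag.IrreducibleFromRoots

open Pool.Agent.Y160.SL
open Pool.Agent.TH115.GD (rs ak Sep Comp)

/-- `K` is the function field of the curve `s ^ 2 = b(t)` over `k`. -/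
structure IsFunctionField (k K : Type) [Field k] [Field K] [Algebra k[X] K] (b : k[X]) (s : K) :
    Prop where
  inj : Function.Injective (algebraMap k[X] K)
  sq : s ^ 2 = algebraMap k[X] K b
  gen : Subfield.closure (Set.range (algebraMap k[X] K) ∪ {s}) = ⊤

/-- The field `F` is the extension `k' K` of `K` by the constants `k'`. -/
structure IsConstantExtension (k k' K F : Type) [Field k] [Field k'] [Algebra k k'] [Field K]
    [Algebra k[X] K] [Field F] [Algebra k'[X] F] [Algebra K F] : Prop where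
  inj : Function.Injective (algebraMap k'[X] F)
  comp : ∀ p : k[X], algebraMap K F (algebraMap k[X] K p) =
    algebraMap k'[X] F (p.map (algebraMap k k'))
  gen : IntermediateField.adjoin K (Set.range ((algebraMap k'[X] F).comp C)) = ⊤

/-- The polynomial `g(x) + t` over the field `K` which contains `k[t]`. -/
noncomputable def fPoly {k : Type} [Field k] (g : k[X]) (K : Type) [Field K] [Algebra k[X] K] : K[X] :=
  g.map ((algebraMap k[X] K).comp C) + C (algebraMap k[X] K X)

/-- The conditions on the polynomials `b` and `g` over `k`. -/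
structure IsPair {k : Type} [Field k] (b g : k[X]) : Prop where
  two : (2 : k) ≠ 0
  monic : g.Monic
  odd : Odd g.natDegree
  base : 0 < b.natDegree
  separable : (b.comp (-g)).Separable

section roots

variable {k k' : Type} [Field k] [Field k'] [Algebra k k'] (b g : k[X])

/-- The function `e` on the roots of `b(-g(x))` in `k'`, extended by zero, is balanced: the sum of the
`e(r)` over the roots `r` with `-g(r) = δ` is zero, for each `δ`. -/
def IsBalanced (e : k' → ZMod 2) : Prop :=
  (∀ r, aeval r (b.comp (-g)) ≠ 0 → e r = 0) ∧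
    ∀ δ : k', ∑ r ∈ ((b.comp (-g)).aroots k').toFinset with -(aeval r g) = δ, e r = 0

variable (k') in
/-- The only Galois submodules of the module of the balanced functions are `0` and the module. -/
def RootsIrreducible : Prop :=
  ∀ U : AddSubgroup (k' → ZMod 2), (∀ e ∈ U, IsBalanced b g e) →
    (∀ τ : k' ≃ₐ[k] k', ∀ e ∈ U, (fun r => e (τ r)) ∈ U) →
      U = ⊥ ∨ ∀ e, IsBalanced b g e → e ∈ U

variable (k') in
/-- The only Galois endomorphisms of the module of the balanced functions are `0` and `1`. -/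
def RootsScalar : Prop :=
  ∀ A : (k' → ZMod 2) → k' → ZMod 2, (∀ e, IsBalanced b g e → IsBalanced b g (A e)) →
    (∀ e e', IsBalanced b g e → IsBalanced b g e' → A (e + e') = A e + A e') →
    (∀ (τ : k' ≃ₐ[k] k') (e : k' → ZMod 2), IsBalanced b g e →
      (A fun r => e (τ r)) = fun r => A e (τ r)) →
        (∀ e, IsBalanced b g e → A e = 0) ∨ ∀ e, IsBalanced b g e → A e = e

variable (k') in
/-- The polynomial `b` is irreducible, and the Galois group contains the transpositions of any two
roots `r, r'` of `b(-g(x))` with `g(r) = g(r')`. -/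
structure HasTranspositions : Prop where
  irreducible : Irreducible b
  swap : ∀ r r' : k', aeval r (b.comp (-g)) = 0 → r ≠ r' → aeval r g = aeval r' g →
    ∃ τ : k' ≃ₐ[k] k', τ r = r' ∧ τ r' = r ∧
      ∀ x : k', aeval x (b.comp (-g)) = 0 → x ≠ r → x ≠ r' → τ x = x

end roots

section gen

variable {K F Ω : Type} [Field K] [Field F] [Field Ω] [Algebra K F] [Algebra F Ω] [Algebra K Ω]
  [IsScalarTower K F Ω] (f : K[X])

/-- The sequences of cochains of `Gal(Ω / F)` with values in `J(Ω)`. -/
abbrev Cochain (F Ω : Type) [Field F] [Field Ω] [Algebra K Ω] [Algebra F Ω] (f : K[X]) : Type :=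
  ℕ → (Ω ≃ₐ[F] Ω) → Jac 2 f Ω

/-- `c` is the coboundary of an element `R` of the Tate module `T_2 J`. -/
def IsTateCoboundary (c : Cochain F Ω f) : Prop :=
  ∃ R : ℕ → Jac 2 f Ω, IsTM 2 2 f R ∧ ∀ n, IsCobOf 2 f (c n) (R n)

/-- The map `κ` identifies with `M` the group of the classes of the cocycles with the property `P`:
it is additive and surjective on these cocycles, and `κ c = 0` if and only if `c` is the coboundary of
an element of the Tate module. -/
structure IsClassMap (P : Cochain F Ω f → Prop) (M : Type) [AddCommGroup M]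
    (κ : Cochain F Ω f → M) : Prop where
  surj : ∀ m, ∃ c, P c ∧ κ c = m
  add : ∀ c d, P c → P d → κ (c + d) = κ c + κ d
  zero : ∀ c, P c → (κ c = 0 ↔ IsTateCoboundary f c)

/-- `d` is the transform of the cochain `c` by the automorphism `T` of `Ω` over `K`:
`d (σ) = T (c (σ'))`, where `σ' = T⁻¹ σ T`. -/
def IsTransform (T : Ω ≃ₐ[K] Ω) (c d : Cochain F Ω f) : Prop :=
  ∀ n (σ σ' : Ω ≃ₐ[F] Ω), (∀ x, T (σ' x) = σ (T x)) → d n σ = jm 2 f (ak T) (c n σ')

/-- The endomorphism `φ` of `M` is induced by the automorphism `T` of `Ω` over `K`. -/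
def IsInduced (P : Cochain F Ω f → Prop) {M : Type} (κ : Cochain F Ω f → M) (T : Ω ≃ₐ[K] Ω)
    (φ : M → M) : Prop :=
  ∀ c d, P c → IsTransform f T c d → P d ∧ κ d = φ (κ c)

end gen

section rep

variable {G M : Type} [Group G] [AddCommGroup M] [Module ℤ_[2] M] (A : G → (M →ₗ[ℤ_[2]] M) → Prop)

/-- `A T φ` means that `T` in the group `G` acts on `M` as `φ`. Each `T` acts, and each stable submodule
of `M` is zero or contains `2 ^ r M` for some `r`. -/
def IsIrreducibleRep : Prop :=
  (∀ T, ∃ φ, A T φ) ∧ ∀ U : Submodule ℤ_[2] M, (∀ T φ, A T φ → ∀ u ∈ U, φ u ∈ U) →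
    U = ⊥ ∨ ∃ r : ℕ, ∀ m : M, (2 : ℤ_[2]) ^ r • m ∈ U

/-- If a subset `N` of `G`, stable under conjugation, fixes an element different from zero of `M`, then
it fixes all the elements of `M`. -/
def NoPartialInvariants : Prop :=
  ∀ N : Set G, (∀ S ∈ N, ∀ T, T⁻¹ * S * T ∈ N) →
    (∃ m : M, m ≠ 0 ∧ ∀ S ∈ N, ∀ φ, A S φ → φ m = m) → ∀ m, ∀ S ∈ N, ∀ φ, A S φ → φ m = m

/-- The endomorphisms of `M` which commute with the action are the elements of `ℤ_2`. -/
def OnlyScalars : Prop :=
  ∀ ψ : M →ₗ[ℤ_[2]] M, (∀ T φ, A T φ → ∀ m, ψ (φ m) = φ (ψ m)) → ∃ c : ℤ_[2], ∀ m, ψ m = c • m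

end rep

section sel

variable {K F : Type} [Field K] [Field F] [Algebra K F] (B : Type) [CommRing B] [IsDedekindDomain B]
  [Algebra B F] [IsFractionRing B F] (f : K[X])

/-- The restriction of the cochain `c` to the completion of `F` at every maximal ideal of the Dedekind
domain `B` with field of fractions `F` is a coboundary. -/
def IsSelmer (c : (Sep F ≃ₐ[F] Sep F) → Jac 2 f (Sep F)) : Prop :=
  ∀ v : HeightOneSpectrum B, LocTriv 2 f (Comp B F v) (Sep (Comp B F v)) c

/-- `c` is a continuous cocycle of `Gal(Sep F / F)` with values in the Tate module `T_2 J` which is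
locally trivial at all the maximal ideals of the Dedekind domain `B` with field of fractions `F`; its
component with values in `J[2 ^ n]` is `c n`. -/
def IsSelmerCocycle (c : Cochain F (Sep F) f) : Prop :=
  IsTC 2 2 f c ∧ ∀ n, IsSelmer B f (c n)

/-- The automorphism `T` of `Sep F` over `K` acts on the module of the classes as `φ`. -/
def ActsAs {M : Type} [AddCommGroup M] [Module ℤ_[2] M] (κ : Cochain F (Sep F) f → M)
    (T : Sep F ≃ₐ[K] Sep F) (φ : M →ₗ[ℤ_[2]] M) : Prop :=
  IsInduced f (IsSelmerCocycle B f) κ T φ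

/-- The module `M` of the classes is free of rank `0` or `r`, and the action on it is irreducible; if the
condition `S` holds, it has only scalar endomorphisms. -/
def Concl (r : ℕ) (S : Prop) : Prop :=
  ∃ (M : Type) (_ : AddCommGroup M) (_ : Module ℤ_[2] M) (_ : Module.Finite ℤ_[2] M)
    (_ : Module.Free ℤ_[2] M) (κ : Cochain F (Sep F) f → M),
    IsClassMap f (IsSelmerCocycle B f) M κ ∧
    (Module.finrank ℤ_[2] M = 0 ∨ Module.finrank ℤ_[2] M = r) ∧
    IsIrreducibleRep (ActsAs B f κ) ∧ NoPartialInvariants (ActsAs B f κ) ∧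
    (S → OnlyScalars (ActsAs B f κ))

end sel

/-- (1) The module of the balanced functions is irreducible. -/
def Main : Prop :=
  ∀ (k k' K F B : Type) [Field k] [Field k'] [Algebra k k'] [IsSepClosure k k'] [Field K]
    [Algebra k[X] K] [Field F] [Algebra k'[X] F] [Algebra K F] [CommRing B] [IsDedekindDomain B]
    [Algebra k'[X] B] [Algebra B F] [IsScalarTower k'[X] B F] [IsFractionRing B F]
    [IsIntegralClosure B k'[X] F] (b g : k[X]) (s : K), IsPair b g → RootsIrreducible k' b g →
    IsFunctionField k K b s → IsConstantExtension k k' K F →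
      Concl (F := F) B (fPoly g K) (b.natDegree * (g.natDegree - 1)) (RootsScalar k' b g)

/-- (2) The conditions hold if the Galois group contains the transpositions. -/
def Criterion : Prop :=
  ∀ (k k' : Type) [Field k] [Field k'] [Algebra k k'] [IsSepClosure k k'] (b g : k[X]),
    IsPair b g → HasTranspositions k' b g → RootsIrreducible k' b g ∧ RootsScalar k' b g

open Pool.Agent.Q45.GM (IsHE fin_of SelT clsOf clsOf_surj clsOf_add clsOf_zero exists_lift
  stp_of WBal WIrr WEnd RT fb Gal rho rho_cls rho_mul isInvt card_eq)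

section conv

variable {K F : Type} [Field K] [Field F] [Algebra K F] {B : Type} [CommRing B] [IsDedekindDomain B]
  [Algebra B F] [IsFractionRing B F] {f : K[X]}

theorem toTC {c : Cochain F (Sep F) f} (h : IsTC 2 2 f c) : Pool.Agent.Y160.SQ.IsTC 2 2 f c :=
  ⟨fun n => ⟨(h.coc n).lc, (h.coc n).mul⟩, h.zero, h.step⟩

theorem ofTC {c : Cochain F (Sep F) f} (h : Pool.Agent.Y160.SQ.IsTC 2 2 f c) : IsTC 2 2 f c :=
  ⟨fun n => ⟨(h.coc n).lc, (h.coc n).mul⟩, h.zero, h.step⟩

/-- The classes of the cocycles. -/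
theorem classMap : IsClassMap f (IsSelmerCocycle B f) (SelT (F := F) 2 B f 2) (clsOf B f) where
  surj m := by
    obtain ⟨c, ⟨h1, h2⟩, h3⟩ := clsOf_surj B f m
    exact ⟨c, ⟨ofTC h1, h2⟩, h3⟩
  add c d hc hd := clsOf_add B f (toTC hc.1) hc.2 (toTC hd.1) hd.2
  zero c hc := by
    refine (clsOf_zero B f (toTC hc.1) hc.2).trans ⟨?_, ?_⟩
    · rintro ⟨R, hR, h⟩
      exact ⟨R, ⟨hR.zero, hR.step⟩, h⟩
    · rintro ⟨R, hR, h⟩
      exact ⟨R, ⟨hR.zero, hR.step⟩, h⟩

end conv

section wbal

variable {k k' : Type} [Field k] [Field k'] [Algebra k k'] {b g : k[X]}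

theorem rt_eq : RT (b.map (algebraMap k k')) (g.map (algebraMap k k')) =
    ((b.comp (-g)).aroots k').toFinset := by
  have h : (b.map (algebraMap k k')).comp (-(g.map (algebraMap k k'))) =
      (b.comp (-g)).map (algebraMap k k') := by
    rw [map_comp, Polynomial.map_neg]
  unfold RT
  rw [h]

theorem mem_wbal (h0 : b.comp (-g) ≠ 0) {e : k' → ZMod 2} :
    e ∈ WBal (RT (b.map (algebraMap k k')) (g.map (algebraMap k k'))) (fb g) ↔ IsBalanced b g e := by
  have hm : ∀ r : k', r ∉ ((b.comp (-g)).aroots k').toFinset ↔ aeval r (b.comp (-g)) ≠ 0 := by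
    intro r
    rw [Multiset.mem_toFinset, mem_aroots]
    constructor
    · intro h h1
      exact h ⟨h0, h1⟩
    · rintro h ⟨-, h1⟩
      exact h h1
  constructor
  · rintro ⟨h1, h2⟩
    rw [rt_eq] at h1 h2
    exact ⟨fun r hr => h1 r ((hm r).2 hr), h2⟩
  · rintro ⟨h1, h2⟩
    refine ⟨?_, ?_⟩
    · rw [rt_eq]
      exact fun r hr => h1 r ((hm r).1 hr)
    · rw [rt_eq]
      exact h2

theorem wirr_of (h0 : b.comp (-g) ≠ 0) (h : RootsIrreducible k' b g) :
    WIrr (RT (b.map (algebraMap k k')) (g.map (algebraMap k k'))) (fb g) (Gal k k') := by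
  intro U hU hst
  rcases h U (fun e he => (mem_wbal h0).1 (hU he)) (fun τ e he => hst τ.toEquiv ⟨τ, fun x => rfl⟩ e he)
    with h1 | h1
  · exact Or.inl h1
  · exact Or.inr (le_antisymm hU fun e he => h1 e ((mem_wbal h0).1 he))

theorem of_wirr (h0 : b.comp (-g) ≠ 0)
    (h : WIrr (RT (b.map (algebraMap k k')) (g.map (algebraMap k k'))) (fb g) (Gal k k')) :
    RootsIrreducible k' b g := by
  intro U hU hst
  rcases h U (fun e he => (mem_wbal h0).2 (hU e he)) (by
    rintro e ⟨τ, hτ⟩ u hu
    have h1 : (fun r => u (e r)) = fun r => u (τ r) := funext fun r => by rw [hτ]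
    rw [h1]
    exact hst τ u hu) with h1 | h1
  · exact Or.inl h1
  · refine Or.inr fun e he => ?_
    rw [h1]
    exact (mem_wbal h0).2 he

theorem wend_of (h0 : b.comp (-g) ≠ 0) (h : RootsScalar k' b g) :
    WEnd (RT (b.map (algebraMap k k')) (g.map (algebraMap k k'))) (fb g) (Gal k k') := by
  intro A hA
  let A' : (k' → ZMod 2) → k' → ZMod 2 := fun e =>
    if he : e ∈ WBal (RT (b.map (algebraMap k k')) (g.map (algebraMap k k'))) (fb g) then (A ⟨e, he⟩).1
    else 0
  have hA' : ∀ e (he : e ∈ WBal (RT (b.map (algebraMap k k')) (g.map (algebraMap k k'))) (fb g)),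
      A' e = (A ⟨e, he⟩).1 := fun e he => dif_pos he
  have hA1 : ∀ e, IsBalanced b g e → IsBalanced b g (A' e) := by
    intro e he
    rw [hA' e ((mem_wbal h0).2 he)]
    exact (mem_wbal h0).1 (A _).2
  have hA2 : ∀ e e', IsBalanced b g e → IsBalanced b g e' → A' (e + e') = A' e + A' e' := by
    intro e e' he he'
    have h1 := (mem_wbal h0).2 he
    have h3 := (mem_wbal h0).2 he'
    rw [hA' e h1, hA' e' h3, hA' (e + e') (AddSubgroup.add_mem _ h1 h3)]
    have h4 := congrArg Subtype.val (map_add A ⟨e, h1⟩ ⟨e', h3⟩)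
    exact h4
  have hA3 : ∀ (τ : k' ≃ₐ[k] k') (e : k' → ZMod 2), IsBalanced b g e →
      (A' fun r => e (τ r)) = fun r => A' e (τ r) := by
    intro τ e he
    have h1 := (mem_wbal h0).2 he
    have h3 : (fun r => e (τ r)) ∈
        WBal (RT (b.map (algebraMap k k')) (g.map (algebraMap k k'))) (fb g) := by
      rw [mem_wbal h0]
      refine ⟨fun r hr => he.1 _ ?_, fun δ => ?_⟩
      · rw [show aeval (τ r) (b.comp (-g)) = τ (aeval r (b.comp (-g))) from
          aeval_algHom_apply (τ : k' →ₐ[k] k') r _]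
        rw [Ne, map_eq_zero_iff τ τ.injective]
        exact hr
      · rw [← he.2 (τ δ)]
        have hmem : ∀ x : k', x ∈ ((b.comp (-g)).aroots k').toFinset ↔
            τ x ∈ ((b.comp (-g)).aroots k').toFinset := by
          intro x
          rw [Multiset.mem_toFinset, Multiset.mem_toFinset, mem_aroots, mem_aroots,
            show aeval (τ x) (b.comp (-g)) = τ (aeval x (b.comp (-g))) from
              aeval_algHom_apply (τ : k' →ₐ[k] k') x _, map_eq_zero_iff τ τ.injective]
        refine Finset.sum_bij' (fun r _ => τ r) (fun r _ => τ.symm r) ?_ ?_ ?_ ?_ ?_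
        · intro r hr
          rw [Finset.mem_filter] at hr ⊢
          refine ⟨(hmem r).1 hr.1, ?_⟩
          rw [show aeval (τ r) g = τ (aeval r g) from aeval_algHom_apply (τ : k' →ₐ[k] k') r _,
            ← map_neg, hr.2]
        · intro r hr
          rw [Finset.mem_filter] at hr ⊢
          refine ⟨(hmem _).2 (by rw [AlgEquiv.apply_symm_apply]; exact hr.1), ?_⟩
          apply τ.injective
          rw [map_neg, show τ (aeval (τ.symm r) g) = aeval (τ (τ.symm r)) g from
            (aeval_algHom_apply (τ : k' →ₐ[k] k') _ _).symm, AlgEquiv.apply_symm_apply, hr.2]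
        · intro r _
          exact AlgEquiv.symm_apply_apply τ r
        · intro r _
          exact AlgEquiv.apply_symm_apply τ r
        · intro r _
          rfl
    rw [hA' _ h3, hA' _ h1]
    funext r
    exact hA τ.toEquiv ⟨τ, fun x => rfl⟩ ⟨e, h1⟩ ⟨_, h3⟩ (fun x => rfl) r
  rcases h A' hA1 hA2 hA3 with h1 | h1
  · left
    refine AddMonoidHom.ext fun e => Subtype.ext ?_
    have h5 := h1 _ ((mem_wbal h0).1 e.2)
    rw [hA' e.1 e.2] at h5
    exact h5
  · right
    refine AddMonoidHom.ext fun e => Subtype.ext ?_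
    have h5 := h1 _ ((mem_wbal h0).1 e.2)
    rw [hA' e.1 e.2] at h5
    exact h5

theorem of_wend (h0 : b.comp (-g) ≠ 0)
    (h : WEnd (RT (b.map (algebraMap k k')) (g.map (algebraMap k k'))) (fb g) (Gal k k')) :
    RootsScalar k' b g := by
  intro A h1 h2 h3
  let A' : WBal (RT (b.map (algebraMap k k')) (g.map (algebraMap k k'))) (fb g) →+
      WBal (RT (b.map (algebraMap k k')) (g.map (algebraMap k k'))) (fb g) :=
    AddMonoidHom.mk' (fun e => ⟨A e.1, (mem_wbal h0).2 (h1 _ ((mem_wbal h0).1 e.2))⟩)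
      (fun e e' => Subtype.ext (h2 _ _ ((mem_wbal h0).1 e.2) ((mem_wbal h0).1 e'.2)))
  rcases h A' (by
    rintro e₀ ⟨τ, hτ⟩ e e' hee r
    have h4 : e'.1 = fun r => e.1 (τ r) := funext fun r => by rw [hee, hτ]
    show A e'.1 r = A e.1 (e₀ r)
    rw [h4, h3 τ e.1 ((mem_wbal h0).1 e.2), hτ]) with h5 | h5
  · left
    intro e he
    have h6 := congrArg (fun A : WBal (RT (b.map (algebraMap k k')) (g.map (algebraMap k k'))) (fb g) →+
      WBal (RT (b.map (algebraMap k k')) (g.map (algebraMap k k'))) (fb g) =>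
        (A ⟨e, (mem_wbal h0).2 he⟩).1) h5
    exact h6
  · right
    intro e he
    have h6 := congrArg (fun A : WBal (RT (b.map (algebraMap k k')) (g.map (algebraMap k k'))) (fb g) →+
      WBal (RT (b.map (algebraMap k k')) (g.map (algebraMap k k'))) (fb g) =>
        (A ⟨e, (mem_wbal h0).2 he⟩).1) h5
    exact h6

end wbal

theorem main : Main := by
  intro k k' K F B _ _ _ hk' _ _ _ _ _ _ _ _ _ _ _ _ b g s hp hirr hK hF
  haveI : IsSepClosed k' := hk'.sep_closed
  haveI : Algebra.IsSeparable k k' := hk'.separable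
  have hK' : IsHE k K b s := ⟨hK.inj, hK.sq, hK.gen⟩
  have hF' : Pool.Agent.Q45.TW.IsGeom k k' K F := ⟨hF.inj, hF.comp, hF.gen⟩
  have h12 := fin_of (B := B) hp.two hp.monic hp.odd hp.base hp.separable hK' hF'
  haveI h1 : Module.Finite ℤ_[2] (SelT (F := F) 2 B (fPoly g K) 2) := h12.1
  haveI h2 : Module.Free ℤ_[2] (SelT (F := F) 2 B (fPoly g K) 2) := h12.2
  have hS : Pool.Agent.Q45.GM.Stp (b.map (algebraMap k k')) (g.map (algebraMap k k'))
    (algebraMap K F s) (fPoly g K) := stp_of hp.two hp.monic hp.odd hp.base hp.separable hK' hF'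
  obtain ⟨a, ha⟩ := Pool.Agent.Y160.SQ.exists_rt (Ω := Sep F) hS.good
  have hI := isInvt B hp.two (Pool.Agent.Q45.GM.bsep_of hp.odd.pos hp.separable) hp.base hK' hF' hS ha
  have h0 := hp.separable.ne_zero
  have hW := wirr_of (k' := k') h0 hirr
  have hcard := card_eq (k' := k') hp.monic hp.odd hp.separable hp.base
  have hind : ∀ (T : Sep F ≃ₐ[K] Sep F) (φ : SelT (F := F) 2 B (fPoly g K) 2 →ₗ[ℤ_[2]]
      SelT (F := F) 2 B (fPoly g K) 2), ActsAs B (fPoly g K) (clsOf B (fPoly g K)) T φ ↔
        φ = rho B hF' (fPoly g K) T := by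
    intro T φ
    constructor
    · intro h
      refine LinearMap.ext fun m => ?_
      obtain ⟨c, ⟨hc, hcs⟩, rfl⟩ := clsOf_surj B (fPoly g K) m
      have hcj := Pool.Agent.Q45.GM.lf_T B hF' (fPoly g K) T
      have hd : IsTransform (fPoly g K) T c (fun n σ => jm 2 (fPoly g K) (ak T)
          (c n ((Pool.Agent.Q45.GM.lf B hF' (fPoly g K) T).conj σ))) := by
        intro n σ σ' hσ
        have h5 : (Pool.Agent.Q45.GM.lf B hF' (fPoly g K) T).conj σ = σ' := by
          refine AlgEquiv.ext fun x => T.injective ?_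
          rw [hσ]
          have h6 := (Pool.Agent.Q45.GM.lf B hF' (fPoly g K) T).T_conj σ x
          rwa [hcj] at h6
        have h8 : ∀ ρ : Sep F ≃ₐ[F] Sep F, ρ = σ' →
            jm 2 (fPoly g K) (ak T) (c n ρ) = jm 2 (fPoly g K) (ak T) (c n σ') := by
          rintro ρ rfl
          rfl
        exact h8 _ h5
      have h7 := (h c _ ⟨ofTC hc, hcs⟩ hd).2
      rw [← h7]
      exact (rho_cls B hF' (fPoly g K) T hc hcs hd).2
    · rintro rfl c d hc hd
      obtain ⟨⟨h4, h5⟩, h6⟩ := rho_cls B hF' (fPoly g K) T (toTC hc.1) hc.2 hd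
      exact ⟨⟨ofTC h4, h5⟩, h6⟩
  have hirr2 : ∀ U : Submodule ℤ_[2] (SelT (F := F) 2 B (fPoly g K) 2),
      (∀ T, ∀ m ∈ U, rho B hF' (fPoly g K) T m ∈ U) →
        U = ⊥ ∨ ∃ r : ℕ, ∀ m, (2 : ℤ_[2]) ^ r • m ∈ U := by
    intro U hU
    exact hI.irr hW U (by
      rintro φ ⟨T, rfl⟩ m hm
      exact hU T m hm)
  refine ⟨SelT (F := F) 2 B (fPoly g K) 2, inferInstance, inferInstance, h1, h2,
    clsOf B (fPoly g K), classMap, ?_, ⟨fun T => ⟨rho B hF' (fPoly g K) T, (hind T _).2 rfl⟩, ?_⟩,
    ?_, ?_⟩
  · have h3 := hI.rank hW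
    rw [hcard] at h3
    exact h3
  · intro U hU
    exact hirr2 U fun T m hm => hU T _ ((hind T _).2 rfl) m hm
  · rintro N hN ⟨m₀, hm₀, hfix⟩ m S hS φ hφ
    rw [(hind S φ).1 hφ]
    exact Pool.Agent.Q45.GM.fixed_all (rho B hF' (fPoly g K)) (rho_mul B hF' (fPoly g K)) hirr2 N hN
      hm₀ (fun S hS => hfix S hS _ ((hind S _).2 rfl)) S hS m
  · intro hsc ψ hψ
    exact hI.scal hW (wend_of h0 hsc) ψ (by
      rintro φ ⟨T, rfl⟩ m
      exact hψ T _ ((hind T _).2 rfl) m)

theorem criterion : Criterion := by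
  intro k k' _ _ _ hk' b g hp h
  haveI : IsSepClosed k' := hk'.sep_closed
  haveI : Algebra.IsSeparable k k' := hk'.separable
  haveI : IsGalois k k' := hk'.isGalois
  have h0 := hp.separable.ne_zero
  have hroot : ∀ r : k', r ∈ RT (b.map (algebraMap k k')) (g.map (algebraMap k k')) ↔
      aeval r (b.comp (-g)) = 0 := by
    intro r
    rw [rt_eq, Multiset.mem_toFinset, mem_aroots]
    exact ⟨fun h => h.2, fun h => ⟨h0, h⟩⟩
  have hbr : ∀ r : k', aeval r (b.comp (-g)) = aeval (fb g r) b := by
    intro r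
    rw [aeval_comp, map_neg]
    rfl
  have hτg : ∀ (τ : k' ≃ₐ[k] k') (r : k'), aeval (τ r) g = τ (aeval r g) := fun τ r =>
    aeval_algHom_apply (τ : k' →ₐ[k] k') r _
  have hτb : ∀ (τ : k' ≃ₐ[k] k') (r : k'), aeval (τ r) (b.comp (-g)) = τ (aeval r (b.comp (-g))) :=
    fun τ r => aeval_algHom_apply (τ : k' →ₐ[k] k') r _
  have hbs : b.Separable := Pool.Agent.Q45.GM.bsep_of hp.odd.pos hp.separable
  have hcardf : ∀ r ∈ RT (b.map (algebraMap k k')) (g.map (algebraMap k k')),
      ((RT (b.map (algebraMap k k')) (g.map (algebraMap k k'))).filter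
        fun x => fb g x = fb g r).card = g.natDegree := by
    intro r hr
    have hs' : ((b.map (algebraMap k k')).comp (-(g.map (algebraMap k k')))).Separable := by
      rw [← Polynomial.map_neg, ← map_comp]; exact hp.separable.map
    have h1 : fb g r ∈ (b.map (algebraMap k k')).roots.toFinset := by
      rw [Multiset.mem_toFinset, mem_roots (hbs.map).ne_zero, IsRoot.def, eval_map_algebraMap, ← hbr]
      exact (hroot r).1 hr
    have h3 := Pool.Agent.Q45.GM.card_block (hp.monic.map (algebraMap k k'))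
      (by rw [hp.monic.natDegree_map]; exact hp.odd.pos) hs' h1
    rw [hp.monic.natDegree_map] at h3
    rw [← h3]
    congr 1
    ext x
    rw [Finset.mem_filter, Finset.mem_filter, RT, eval_map_algebraMap]
    rfl
  have hT : Pool.Agent.Q45.GM.HasTranspositions
      (RT (b.map (algebraMap k k')) (g.map (algebraMap k k'))) (fb g) g.natDegree (Gal k k') := by
    refine ⟨?_, ?_, ?_, ?_, hcardf⟩
    · rintro e ⟨τ, hτ⟩ r
      rw [hroot, hroot, hτ, hτb, map_eq_zero_iff τ τ.injective]
    · rintro e ⟨τ, hτ⟩ r hr r' hr'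
      unfold fb
      rw [hτ, hτ, hτg, hτg, neg_inj, neg_inj]
      exact τ.injective.eq_iff
    · intro r hr r' hr'
      have h1 : aeval (fb g r) b = 0 := by rw [← hbr]; exact (hroot r).1 hr
      have h2 : aeval (fb g r') b = 0 := by rw [← hbr]; exact (hroot r').1 hr'
      have h3 : minpoly k (fb g r) = minpoly k (fb g r') := by
        rw [← minpoly.eq_of_irreducible h.irreducible h1, ← minpoly.eq_of_irreducible h.irreducible h2]
      obtain ⟨τ, hτ⟩ := IsConjRoot.exists_algEquiv (K := k) (L := k') h3.symm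
      refine ⟨τ.toEquiv, ⟨τ, fun x => rfl⟩, ?_⟩
      show -(aeval (τ r) g) = _
      rw [hτg, ← map_neg]
      exact hτ
    · intro r hr r' hr' hne hf
      obtain ⟨τ, hτ1, hτ2, hτ3⟩ := h.swap r r' ((hroot r).1 hr) hne (neg_inj.1 hf)
      exact ⟨τ.toEquiv, ⟨τ, fun x => rfl⟩, hτ1, hτ2, fun x hx h1 h2 => hτ3 x ((hroot x).1 hx) h1 h2⟩
  exact ⟨of_wirr h0 (Pool.Agent.Q45.GM.JW1.main _ _ _ _ _ hp.odd hT),
    of_wend h0 (Pool.Agent.Q45.GM.JW2.main _ _ _ _ _ hp.odd hT)⟩

/-- (1) The theorem. (2) The criterion. -/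
theorem result : Main ∧ Criterion := ⟨main, criterion⟩

end Pool.Agent.Results.MP_b4801b_ag.IrreducibleFromRoots
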