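import Pool.Agent.Q129.SS.Main

/-!
# Semisimplicity of `ℓ`-adic cohomology: middle degree of rational varieties over `ℚ`

Fix a prime number `ℓ`. Q1 (Grothendieck, Serre) says that for all finitely generated fields `k` of
characteristic zero, all smooth projective varieties `X` over `k` and all `i` the representation
`H^i_ℓ(X)` of the Galois group of `k` is semisimple.

For a finite list `l` of smooth projective varieties over `ℚ` and an integer `N` larger than their
dimensions such that their disjoint union embeds in `ℙ^(2N)`, let `Y(l, N)` be the blow-up of
`ℙ^(2N)` along this disjoint union, a smooth projective rational variety over `ℚ` of even dimension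
`2 N`.

Let `l s`, `N s` be any exhausting sequence: each smooth projective variety over `ℚ` belongs to all
but finitely many of the lists `l s`. The theorem: Q1 (for the prime `ℓ`, all fields `k`, all `X` and
all `i`) is true if and only if the middle cohomology `H^(2N)_ℓ(Y(l s, N))`, `N = N s`, is a
semisimple representation of the Galois group of `ℚ` for infinitely many `s`. In other words: one
counterexample to Q1, over whatever field and in whatever degree, makes the middle cohomology of all
but finitely many of these rational varieties non-semisimple, for every exhausting sequence, however
sparse.

The odd degrees are covered by the even ones by a theorem of Serre, which we prove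
(`SS/Trace.lean`): in characteristic zero, if `V ⊗ W` is semisimple and `W ≠ 0`, then `V` is
semisimple.
-/

namespace Pool.Agent.Results.MP_b4801b_ag.RationalVarietiesOverQ

open Pool.Agent.Q129.SS

universe u

/-- **Semisimplicity and rational varieties.** Let `T` be the finitely generated fields of
characteristic zero, the smooth projective varieties over them and their `ℓ`-adic cohomology
(`F = ℚ_ℓ`; `hT`: known facts; `T.Bl l n` is the blow-up of `ℙ^n` over `ℚ` along the disjoint union of the
members of `l`). For every exhausting sequence of lists `l s` of varieties over `ℚ` and integers `N s`
the following are equivalent:
* all representations `H^i_ℓ(X)` are semisimple, for all finitely generated fields `k` of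
  characteristic zero, all smooth projective varieties `X` over `k` and all `i`;
* for infinitely many `s` the representation `H^(2 N s)_ℓ(Y)` of the Galois group of `ℚ` is
  semisimple, where `Y` is the blow-up of `ℙ^(2 N s)` along the disjoint union of the members of
  `l s`, a rational variety of dimension `2 N s`. -/
theorem result {F : Type} [Field F] [CharZero F] (T : EtaleCohomology.{u} F) (hT : T.Facts)
    (l : ℕ → List (T.Var T.rat)) (N : ℕ → ℕ) (hE : T.Exhausting l N) :
    T.Question ↔ {s | T.MiddleSemisimple (l s) (N s)}.Infinite :=
  EtaleCohomology.exhausting_iff hT l N hE

end Pool.Agent.Results.MP_b4801b_ag.RationalVarietiesOverQ
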