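import Pool.Agent.Q65.SS.Main

/-!
# Semisimplicity for hypersurfaces given by sums of forms in few variables

Let `k` be a finitely generated field of characteristic zero. We consider the smooth hypersurfaces

  `W : f_1(x^(1)) + f_2(x^(2)) + ⋯ + f_r(x^(r)) = 0`, `r ≥ 1` arbitrary,

where over the algebraic closure of `k` the `f_j` are forms of degree `d ≥ 2` in disjoint sets of
variables, of one of the following kinds: cubic forms in at most six variables, quartic forms in at
most four variables, forms of any degree `d` in at most two variables (and each of these plus `u^d`,
`u` a new variable). The dimension of `W` is arbitrary. We prove that the `ℓ`-adic cohomology of all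
products of such hypersurfaces (of various degrees), abelian varieties, K3 surfaces and hyperkaehler
varieties of the known deformation types is a semisimple representation of the Galois group of `k`.

The Lean proof contains: the primitive motive of `W` is in the tensor category generated by the
motives of abelian varieties (`JoinData.small_sum`); semisimplicity passes to subgroups of finite
index and back (theorem of Clifford and averaging), to direct summands, and is unchanged by Tate
twists in both directions.
-/

set_option autoImplicit false

open CategoryTheory MonoidalCategory Representation

universe v u w

namespace Pool.Agent.Results.MP_b4801b_ag.SumsOfSmallForms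

open Pool.Agent.Q28.HJ Pool.Agent.Q65.SS

/-- **Semisimplicity in all dimensions.** Let `Γ` be the absolute Galois group of the finitely
generated field `k` of characteristic zero, `T` the motives over the algebraic closure of `k` (for
absolutely Hodge correspondences) with their `ℓ`-adic cohomology (`hT`: known facts). Let `M` be a
motive obtained by tensor products, direct sums, direct summands and Tate twists from the motives of
abelian varieties, of K3 surfaces and hyperkaehler varieties of the known deformation types, and from
the primitive motives of the smooth hypersurfaces `W` which are sums of forms in few variables
(`IsSmallSum`). Then every model of `M` over `k` gives a semisimple representation of `Γ`. -/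
theorem result (ℓ : ℕ) [Fact ℓ.Prime] {Γ : Type} [Group Γ] {𝓜 : Type u} [Category.{v} 𝓜]
    [Preadditive 𝓜] [MonoidalCategory 𝓜] {T : GaloisData.{v, u, w} Γ ℚ_[ℓ] 𝓜}
    (hc : Chevalley ℚ_[ℓ]) (hT : T.Facts) (M : 𝓜)
    (hM : GenBy T.L (fun N => T.AV N ∨ T.HK N ∨ ∃ W, T.IsSmallSum W ∧ N = T.prim W) M)
    (ρ : Representation ℚ_[ℓ] Γ (T.V M)) (hρ : T.IsModel M ρ) : ρ.IsSemisimpleRepresentation :=
  GaloisData.final hc hT M hM ρ hρ

end Pool.Agent.Results.MP_b4801b_ag.SumsOfSmallForms
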