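import Pool.Agent.Q55.Moo.Main

/-!
# Semisimplicity for all powers from the Tate conjecture for one explicit power

Let `F` be a finitely generated field of characteristic zero and let `X` be a smooth projective
variety over `F`. The Tate conjecture (b) below is the statement over all finite extensions of `F`:
all Tate classes are linear combinations of the classes of algebraic cycles.

(1) Let `b_i` be the `i`-th Betti number of `X ^ n`. If (b) holds for `X ^ (n b_i)`, then the
representation of the Galois group on `H^i(X ^ n)` is semisimple. In particular (b) for the single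
power `X ^ (b_i(X))` implies that `H^i(X)` is semisimple.

(2) Let `b` be the sum of the Betti numbers of `X` and `N = (2 b) ^ ((2 b) ^ 5)`. If (b) holds for
the single variety `X ^ N`, then for all `n`
- the representations on `H^i(X ^ n)` are semisimple for all `i`,
- all Tate classes on `X ^ n` are linear combinations of the classes of algebraic cycles,
- homological and numerical equivalence agree on `X ^ n`,
and the same holds for every variety `Y` which is a retract of a power of `X`.

No semisimplicity is assumed. The hypothesis on the field is `DetCyclotomic`: for every stable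
subspace `V` of `H^i(X ^ n)` an open subgroup of the Galois group acts on `det(V) ^ 2` by the
`(i * dim V)`-th power of the (inverse) cyclotomic character. This is a theorem (Deligne, Faltings,
Serre, Weil) if the algebraic closure of `ℚ` in `F` contains no CM field, for example if `F` is
contained in the real numbers or `F = ℚ(t_1, ..., t_m)`. For an arbitrary finitely generated field
`F` of characteristic zero let `F₀ = ℚ(t_1, ..., t_m)` be a subfield such that `F / F₀` is finite;
apply the theorem to the Weil restriction `R` of `X` from `F` to `F₀`: over the algebraic closure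
all powers of `X` are retracts of powers of `R`, so that (b) for one explicit power of `R` implies
(a) and (b) for all powers of `X`.
-/

open CategoryTheory AlgebraicGeometry

universe u w

namespace Pool.Agent.Results.MP_b4801b_ag.TateAloneOnePower

open Pool.Agent.H914 Pool.Agent.H914.VarClass.Obj
open Pool.Agent.Q55 (GaloisAction TateConj)
open Pool.Agent.Q60.TD (SemisimpleAt IsArithmetic IsAmpleLike power)
open Pool.Agent.Q55.Moo (DetCyclotomic OverBase)

variable {k : Type u} [Field k] {𝒱 : VarClass k} {ops : CycleOps 𝒱}
  {W : WeilCohomology.{u, 0} ops} {Γ : Type w} [Group Γ]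

/-- **Semisimplicity in degree `i` from the Tate conjecture for one power, and the Tate conjecture
and semisimplicity for all powers from the Tate conjecture for one explicit power.**
`power X n` is the product of `n` copies of `X`, and `bettiNumber W Y i` is the dimension of
`H^i(Y)`. -/
theorem result (G : GaloisAction W Γ) (X : 𝒱.Obj) (hD : ∃ D, IsAmpleLike W X D)
    (hdet : ∀ n, 1 ≤ n → DetCyclotomic G (power X n)) :
    (∀ n, 1 ≤ n → ∀ i, TateConj G (power X (n * bettiNumber W (power X n) i)) →
      SemisimpleAt G (power X n) i) ∧
    ∀ [TopologicalSpace Γ] [TopologicalSpace W.K], IsArithmetic G X → OverBase G X →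
      ∀ b N : ℕ, Module.finrank W.K (W.H X) = b → N = (2 * b) ^ (2 * b) ^ 5 →
        TateConj G (power X N) →
          (∀ n, 1 ≤ n → (∀ i, SemisimpleAt G (power X n) i) ∧ TateConj G (power X n) ∧
            HomEqNum W (power X n)) ∧
          ∀ n, 1 ≤ n → ∀ (Y : 𝒱.Obj) (s : Y ⟶ power X n) (p : power X n ⟶ Y), s ≫ p = 𝟙 Y →
            (∀ i, SemisimpleAt G Y i) ∧ TateConj G Y ∧ HomEqNum W Y := by
  obtain ⟨D, hD⟩ := hD
  have hdet' : ∀ n, DetCyclotomic G (Pool.Agent.Y133.Half.pw X n) := fun n =>
    hdet (n + 1) (by omega)
  refine ⟨?_, ?_⟩
  · rintro n hn i hT
    obtain ⟨m, rfl⟩ : ∃ m, n = m + 1 := ⟨n - 1, by omega⟩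
    exact Pool.Agent.Q55.Moo.semisimple_of_tate hD m i (hdet' m) hT
  · intro _ _ hA hO b N hb hN hT
    subst hb hN
    exact ⟨fun n _ => Pool.Agent.Q55.Moo.main hA hD hO hdet' (by omega) hT (n - 1),
      fun n _ Y s p h => Pool.Agent.Q55.Moo.main_retract hA hD hO hdet' (by omega) hT h⟩

end Pool.Agent.Results.MP_b4801b_ag.TateAloneOnePower
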